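import Pool.Agent.Y229.PG.Idl2

/-!
# The strong monodromy conjecture for ideals generated by generic compositions

Let `Φ_1(x, z), …, Φ_P(x, z)` and `p_1(x), …, p_k(x)` be polynomials whose exponents are arbitrary and
whose coefficients are generic (at some exponents, for instance at the vertices of the Newton
polytopes; the other terms are arbitrary), and let `I ⊂ ℂ[x_1, …, x_N]` be the ideal generated by the
compositions `f_j(x) = Φ_j(x, p_1(x) / c_1, …, p_k(x) / c_k)`. We prove that `b_I(s) Z_I(s)` is a
polynomial (Q2), where `b_I` is the Bernstein-Sato polynomial of Budur, Mustata and Saito and `Z_I` the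
topological zeta function of `I`: every pole of `Z_I` is a root of `b_I`, of at least the same order.

Examples are the ideals generated by arbitrary products of powers `x ^ (u_j) ∏_i p_i ^ (e_(j, i))`,
`j = 1, …, P`, of generic polynomials `p_1, …, p_k` (the `Φ_j` are monomials: the monomial ideals
in generic polynomials; for `p_i = x_i` these are the monomial ideals), in particular the products
of powers of the ideals generated by some of the `p_i`, and the ideals
generated by sums of such products with generic coefficients. They are in general degenerate with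
respect to the Newton polytopes, in all coordinates. The case `k = 0` is the starting result
`GenericCoefficientIdeals`.

Method. By one half of a theorem of Mustata a functional equation of `f_1, …, f_P` with `b` gives one
of `g = ∑_j u_j f_j`, with `(s + 1) b(s)`. The polynomial `g + y_1 z_1 + ⋯ + y_k z_k` becomes
`G = ∑_j u_j Φ_j + ∑_i y_i l_i`, `l_i = c_i z_i - p_i(x)`, by an automorphism of the polynomial ring, and `G`
has generic coefficients. If `b_g(s) = (s + 1) b(s)`, then `b(s) g ^ s ∈ D[s] (g, ∂ g) g ^ s`, and this
gives a functional equation of `g + ∑ y_i z_i` with `(s + 1) b(s + k)`. By the theorem for generic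
coefficients (`W425.GN.gen_top`), `(s + 1) b(s + k) Z_G(s)` is a polynomial. Finally
`Z_I(s) = (s + 1) Z_g(s)` and `1 - Z_g(s) = (1 - Z_G(s - k)) s (s - k + 1) / ((s - k) (s + 1))`.
-/

set_option autoImplicit false

namespace Pool.Agent.Results.MP_ee8c61_ag.GenericCompositionIdeals

open Polynomial Pool.Agent.W422.GC
open Pool.Agent.W425.SM (SmoothFan Principal)
open Pool.Agent.W425.MM (NonD we wc)
open Pool.Agent.W574.SM (IsFunctionalEq)
open Pool.Agent.Y229.RE (unstab ex)
open Pool.Agent.Y229.PS (hG)
open Pool.Agent.Y229.PG (tupQ HullQ iP iM iH)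

/-- **The strong monodromy conjecture, with multiplicities (Q2, hence Q1), for ideals generated by
generic compositions.**

Let `F ⊆ ℂ` be a field and let exponents `m_j ∈ ℕ ^ (N + k)` of monomials in `x_1, …, x_N, z_1, …, z_k`
be given, `j = 1, …, r`, in groups `π j ∈ {1, …, k + P}` (in each group the `m_j` are distinct). For
`a ∈ ℂ ^ r` let `tupQ π m a H i = ∑_{π j = i} a_j X ^ (m_j) + H_i`, where `H_i` is a polynomial over `F`
with exponents in the convex hull of the `m_j` with `π j = i` (`HullQ`). We write
`l_i = tupQ π m a H i` for `i ≤ k` and `Φ_j = tupQ π m a H (k + j)`, `j = 1, …, P`. There is a nonzero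
polynomial `g` over `F` such that for all `a ∈ ℂ ^ r` with `g(a) ≠ 0`:

* The polynomial `G_a = ∑_j u_j Φ_j + ∑_i y_i l_i` in the variables `u, x; y, z` is nondegenerate
  (`NonD`, for its exponents `ex (iP π) (iM π m)` and coefficients `a`, together with those of its fixed
  part `hG (iH H)`).

* Let `l_i = c_i z_i - p_i(x)`, `c_i ≠ 0`, for `i = 1, …, k`, let
  `f_j(x) = Φ_j(x, p_1(x) / c_1, …, p_k(x) / c_k)`, not all zero, and `I = (f_1, …, f_P)`. Then
  `b(s) (s - k) Z_I(s)` is a polynomial for every `b` with `IsFunctionalEq f b` (the functional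
  equation in the definition of `b_I`; `b_I` is the monic one of least degree of these
  polynomials); so every pole `s0 ≠ k` of `Z_I` is a root of `b_I`, of at least the same order (all the
  poles of `Z_I` are negative rational numbers).

Here `Z_I(s) = (s + 1) Z_g(s)`, where `Z_g = unstab k 1 Z` is the global topological zeta function of
`g = ∑_j u_j f_j(x)`, given by `1 - Z_g(s) = (1 - Z(s - k)) s (s - k + 1) / ((s - k) (s + 1))`, and
`Z = topZetaG (ex (iP π) (iM π m)) R` is the global topological zeta function of the nondegenerate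
polynomial `G_a`, computed on the toric resolution of any smooth fan `R` subdividing the orthant of
`ℝ ^ (P + N + 2 k)` on which the ideal of the monomials of `G_a` becomes principal. -/
theorem result {N k P r : ℕ} (hr : 1 ≤ r) (F : Subfield ℂ) (π : Fin r → Fin (k + P))
    (m : Fin r → Fin (N + k) → ℕ) (hinj : ∀ j j', π j = π j' → m j = m j' → j = j')
    (H : Fin (k + P) → MvPolynomial (Fin (N + k)) F)
    (hH : ∀ i, ∀ w ∈ (H i).support, HullQ π m i w) :
    ∃ g : MvPolynomial (Fin r) F, g ≠ 0 ∧ ∀ a : Fin r → ℂ, MvPolynomial.aeval a g ≠ 0 →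
      NonD (Fin.append (ex (iP π) (iM π m)) (we (hG (iH H))))
        (Fin.append a (fun l => algebraMap F ℂ (wc (hG (iH H)) l))) ∧
      ∀ (c : Fin k → ℂ) (p : Fin k → MvPolynomial (Fin N) ℂ), (∀ i, c i ≠ 0) →
        (∀ i : Fin k, tupQ π m a H (Fin.castAdd P i) = MvPolynomial.C (c i) *
          MvPolynomial.X (Fin.natAdd N i) - MvPolynomial.rename (Fin.castAdd k) (p i)) →
        ∀ f : Fin P → MvPolynomial (Fin N) ℂ, (∀ j, f j = MvPolynomial.aeval
          (Fin.append MvPolynomial.X fun i => MvPolynomial.C (c i)⁻¹ * p i)
            (tupQ π m a H (Fin.natAdd k j))) → (∃ j, f j ≠ 0) →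
        ∀ b : ℂ[X], IsFunctionalEq f b →
        ∀ R : SmoothFan ((P + N) + (k + k)), Principal (ex (iP π) (iM π m)) R →
          ∃ Q : ℂ[X], algebraMap ℂ[X] (RatFunc ℂ) (b * (X - C (k : ℂ))) *
            ((RatFunc.X + 1) * unstab k 1 (topZetaG (ex (iP π) (iM π m)) R)) =
              algebraMap ℂ[X] (RatFunc ℂ) Q :=
  Pool.Agent.Y229.PG.ideal_strong hr F π m hinj H hH

end Pool.Agent.Results.MP_ee8c61_ag.GenericCompositionIdeals
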