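import Pool.Agent.Y230.PL.Zeta

set_option autoImplicit false

/-! # The stronger form of the strong monodromy conjecture for all ideals of `ℂ[x, y]`

For every ideal `I` of `ℂ[x, y]` the product `b_I(s) * Z_I(s)` is a polynomial. The zeta function
is computed with a log resolution which is a composition of blow-ups of points, see `LocalZeta` and
`PlaneZeta` in `Pool.Agent.W574.SM.ZetaDefs`.

The earlier hand-in `PlaneIdeals` says that the poles are roots; the orders of the poles are new.
The proof (in `Pool.Agent.Y230.PL` and `Pool.Agent.Y230.AR`):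

* `all_nonneg`: if two divisors with `n + a s₀ = 0` meet over a point `P` then `n + a s₀ ≥ 0` for
  all the divisors over `P` (so `s₀` is minus the log canonical threshold at `P`);
* `up_tree`, `lo_tree`: then `∫ |f| ^ (2 s) φ`, `|f| ^ 2 = ∑ |f_j| ^ 2`, converges for
  `s₀ < s < 0` near `P` and is at least `C (s - s₀) ^ (-2)`;
* `key_bound`: for every ideal in any number of variables, and every test function `φ ≥ 0` with
  support in `K`, `|b(s)| ∫ |f| ^ (2 s) φ ≤ C ∫_K |f| ^ (2 s + 1)` (the functional equation is
  integrated against `exp (- τ |f| ^ 2)`), so that `b` has a double root at `s₀`. -/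

namespace Pool.Agent.Results.MP_ee8c61_ag.PlaneIdealsStrong

open MvPolynomial Pool.Agent.W574.SM

/-- **`b_I * Z_I` is a polynomial for all ideals of `ℂ[x, y]`.** Let `(f_j)` be an ideal of
`ℂ[x, y]`, let `b` be a polynomial which satisfies a functional equation of the `f_j` (in
particular the Bernstein-Sato polynomial of the ideal), and let `Z` be the topological zeta function
of the ideal, computed by blowing up points. Then `b * Z` is a polynomial. -/
theorem result {ι : Type} [Fintype ι] (f : ι → MvPolynomial (Fin 2) ℂ) (b : Polynomial ℂ)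
    (hb : IsFunctionalEq f b) (Z : RatFunc ℂ) (hZ : PlaneZeta f Z) :
    ∃ P : Polynomial ℂ, algebraMap (Polynomial ℂ) (RatFunc ℂ) b * Z
      = algebraMap (Polynomial ℂ) (RatFunc ℂ) P :=
  Pool.Agent.Y230.PL.plane_q2 f b hb Z hZ

end Pool.Agent.Results.MP_ee8c61_ag.PlaneIdealsStrong
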