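import Pool.Agent.Y230.RS.Fin

set_option autoImplicit false

/-! # The stronger form for ideals whose strata are visible in the blow-up

Let `I = (f_j)` be an ideal of `ℂ[x_i]` and let `Y → ℂ ^ N` be a log resolution of `I`, with the
divisors `E_i`, `a_i = ord_{E_i} I`, `k_i = ord_{E_i} K`. The ideal defines a morphism from `Y` to
the blow-up of `I`, which is a subvariety of `ℂ ^ N × ℙ ^ (r - 1)`.

The theorem: *if every stratum `E_S°` with `χ(E_S°) ≠ 0` has in its closure a point at which the
morphism from `Y` to the blow-up of `I` is unramified, then `b_I(s) * Z_I(s)` is a polynomial.*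
In particular this is so for all ideals whose blow-up is a log resolution. There is no condition on
the dimension, on the position of the numbers `-(k_i + 1) / a_i`, and there may be poles of any
order. In fact a weaker condition is enough, see `PointChart.IsVisible`.

The single divisors (the roots, without their multiplicities) are the hand-in `ReesDivisors`; the
multiplicities are the new part: at such a point the product of the factors `a_i s + k_i + 1` over
all the divisors through the point divides `b_I(s)`. -/

namespace Pool.Agent.Results.MP_ee8c61_ag.ReesStrata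

open MvPowerSeries Pool.Agent.W574.SM Pool.Agent.Y230.RS

/-- A formal chart at a point `q` of `Y`: formal power series `ξ i` in formal coordinates `X t`
at `q` such that the Jacobian determinant of `x = ξ` is `∏ X_t ^ k_t` times a unit, such that all
the `f j` are divisible by `∏ X_t ^ a_t`, and such that `f j0` is `∏ X_t ^ a_t` times a unit.
So the divisors through `q` are among the `X_t = 0`, and `k_t = ord K`, `a_t = ord I` there. -/
structure PointChart {σ ι : Type} [Fintype σ] [DecidableEq σ] (f : ι → MvPolynomial σ ℂ) where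
  /-- the chart -/
  ξ : σ → MvPowerSeries σ ℂ
  /-- the multiplicities of the relative canonical divisor -/
  k : σ → ℕ
  /-- the orders of the ideal -/
  a : σ → ℕ
  /-- the index of a generator of minimal order -/
  j0 : ι
  jacobian : ∃ U : MvPowerSeries σ ℂ, constantCoeff U ≠ 0 ∧
    (Matrix.of fun t i => pderiv ℂ t (ξ i)).det = (∏ t, X t ^ k t) * U
  divides : ∀ j, (∏ t, X t ^ a t) ∣ MvPolynomial.aeval ξ (f j)
  attained : ∃ U : MvPowerSeries σ ℂ, constantCoeff U ≠ 0 ∧
    MvPolynomial.aeval ξ (f j0) = (∏ t, X t ^ a t) * U

/-- For every coordinate `X t` at the point `q` there is a function `w t` of the form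
`(∑_j c_j(x) f_j(x)) / f_{j0}(x)`, with polynomials `c_j`, that is, a regular function of an
affine chart of the blow-up of the ideal, of which the pull-back to `Y` has the leading form
`c X_t ^ m` at `q`, with `m ≥ 1` and `c ≠ 0`. If the morphism from `Y` to the blow-up is
unramified at `q` then this holds with `m = 1`, see `PointChart.isVisible_of_unramified`. -/
def PointChart.IsVisible {σ ι : Type} [Fintype σ] [DecidableEq σ] [Fintype ι]
    {f : ι → MvPolynomial σ ℂ} (q : PointChart f) : Prop :=
  ∀ t, ∃ (w : MvPowerSeries σ ℂ) (m : ℕ), 1 ≤ m ∧ coeff (Finsupp.single t m) w ≠ 0 ∧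
    (∀ μ : σ →₀ ℕ, μ ≠ Finsupp.single t m → coeff μ w ≠ 0 → m < μ.degree) ∧
    ∃ c : ι → MvPolynomial σ ℂ, ∑ j, MvPolynomial.aeval q.ξ (c j) * MvPolynomial.aeval q.ξ (f j)
      = MvPolynomial.aeval q.ξ (f q.j0) * w

/-- If the morphism from `Y` to the blow-up of the ideal is unramified at `q`, that is, if there
are functions `w t` of the blow-up which are formal coordinates at `q`, then `q` is visible. -/
theorem PointChart.isVisible_of_unramified {σ ι : Type} [Fintype σ] [DecidableEq σ] [Fintype ι]
    {f : ι → MvPolynomial σ ℂ} (q : PointChart f) (w : σ → MvPowerSeries σ ℂ)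
    (hw0 : ∀ t, constantCoeff (w t) = 0)
    (hwdet : (Matrix.of fun s t => constantCoeff (pderiv ℂ s (w t))).det ≠ 0)
    (hw : ∀ t, ∃ c : ι → MvPolynomial σ ℂ,
      ∑ j, MvPolynomial.aeval q.ξ (c j) * MvPolynomial.aeval q.ξ (f j)
        = MvPolynomial.aeval q.ξ (f q.j0) * w t) : q.IsVisible := by
  obtain ⟨y, hy, hc⟩ := pure_of_unramified f q.ξ q.j0 w hw0 hwdet hw
  exact fun t => ⟨y t, 1, le_refl 1, (hy t).1, (hy t).2, hc t⟩

/-- **The stronger form holds if the strata are visible in the blow-up.** Let `E_i`, `i ∈ J`, be
the divisors of a log resolution, with the numbers `a_i` and `k_i`, and let `χ S` be the Euler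
characteristic of the stratum `E_S°`. Suppose that for every `S` with `χ S ≠ 0` there is a visible
point through which all the divisors `E_i`, `i ∈ S`, pass (`X_{e(i)} = 0` being the equation of
`E_i` at this point). Then `b * Z` is a polynomial, for every polynomial `b` which satisfies a
functional equation of the ideal, in particular for the Bernstein-Sato polynomial `b_I`. -/
theorem result {σ ι : Type} [Fintype σ] [DecidableEq σ] [Fintype ι] (f : ι → MvPolynomial σ ℂ)
    (b : Polynomial ℂ) (hb : IsFunctionalEq f b) {J : Type} [Fintype J] [DecidableEq J]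
    (a k : J → ℕ) (χ : Finset J → ℤ)
    (h : ∀ S, χ S ≠ 0 → ∃ q : PointChart f, q.IsVisible ∧ ∃ e : J → σ, Set.InjOn e S ∧
      ∀ i ∈ S, q.a (e i) = a i ∧ q.k (e i) = k i) :
    ∃ P : Polynomial ℂ, algebraMap (Polynomial ℂ) (RatFunc ℂ) b * (∑ S : Finset J,
      (χ S : RatFunc ℂ) * ∏ i ∈ S, 1 / ((a i : RatFunc ℂ) * RatFunc.X + (k i : RatFunc ℂ) + 1))
        = algebraMap (Polynomial ℂ) (RatFunc ℂ) P := by
  refine zeta_mul a k χ b fun S hS => ?_
  obtain ⟨q, hq, e, he, hek⟩ := h S hS
  refine prod_dvd_of_inj a k S e he q.a q.k hek b ?_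
  choose w m hm h1 h2 hc using hq
  have h3 := strata_prod f b hb q.ξ q.a q.k (fun _ => 0) q.jacobian q.j0 q.divides q.attained 1
    ⟨1, by simp, by simp⟩ m (fun t => by have := hm t; omega) w (fun t => ⟨h1 t, h2 t⟩) hc
  simpa using h3

end Pool.Agent.Results.MP_ee8c61_ag.ReesStrata
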