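import Pool.Agent.Y230.TH.TopFin

/-!
# The strong monodromy conjecture for ideals obtained by sums, products and Thom-Sebastiani sums

Let `𝓘` and `𝓗` be the least classes of ideals and of hypersurfaces with the following properties.

* `𝓘` contains the powers `(x ^ m)`; all non-zero ideals of `ℂ[x, y]`; the ideals of
  `ℂ[x₀, x₁, x₂]` generated by forms of the same degree, three of which are algebraically independent;
  the ideals generated by forms of the same degree without a common zero outside the origin; the ideals
  whose numerical data come from Rees divisors; the ideals `(f_1, …, f_k)` in any number of variables
  with very general coefficients at the vertices of the Newton polytopes of the `f_i` and arbitrary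
  other coefficients; the principal ideals `(h)` with `h` in `𝓗`; and `𝓘` is closed under sums and
  products in disjoint sets of variables.
* `𝓗` contains all plane curves and the polynomials with very general coefficients at the
  vertices of the Newton polytope and arbitrary other terms; for `(f_j)` in `𝓘` and `g` in `𝓗` it
  contains `∑ y_j f_j(x)` and `∑ y_j f_j(x) + g(z)`, with new variables `y_j`; and `𝓗` is closed
  under products in disjoint sets of variables and under dropping variables which do not occur.

Then for every ideal in `𝓘`, every pole of the topological zeta function is a root of the
Bernstein-Sato polynomial of the ideal.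

For `F = ∑ y_j f_j(x) + g(z)` the zeta function is obtained from the ones of `(f_j)` and `g` by a
product of exponential polynomials, see `Pool/Agent/Y230/TH/TopDefs`, so that the poles `≠ -1` are
among the sums `α + β`, where `α` is a pole of `Z_I` and `β` a pole of `(s + 1) Z_g`; and `α + β` is a
root of `b_F(s) / (s + 1)`, since `α` is a root of `b_I` and `β` is one of `b_g(s) / (s + 1)`: this is
proved with the description of the roots of `b_F(s) / (s + 1)` by the microlocal `b`-function.
-/

set_option autoImplicit false

namespace Pool.Agent.Results.MP_ee8c61_ag.ThomSebastianiIdeals

open MvPolynomial Pool.Agent.W574.SM Pool.Agent.W574.RO Pool.Agent.H628R4.TP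
  Pool.Agent.Y229 Pool.Agent.Y228.AT Pool.Agent.Y230.TH

/-- **The strong monodromy conjecture for ideals obtained by sums, products and Thom-Sebastiani
sums.** Let `TT AllGlobal StrongHyp c A Z` be the classes of ideals (`c = false`) and of
hypersurfaces (`c = true`) with their topological zeta functions `Z` which are obtained from the
ideals in `AllGlobal` and the hypersurfaces in `StrongHyp` by sums and products in disjoint sets of
variables, by `∑ y_j f_j(x)` and by `∑ y_j f_j(x) + g(z)`. Let the family `A` generate the ideal `I`,
and let `Z` be its topological zeta function, obtained in this way. Let `b` satisfy a functional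
equation of `A` (in particular let `b` be the Bernstein-Sato polynomial of `I`). Then every pole of
`Z` is a root of `b`. -/
theorem result (A : Fam) (Z : RatFunc ℂ) (h : TT AllGlobal StrongHyp false A Z)
    (b : Polynomial ℂ) (hb : IsFunctionalEq A.f b) (s₀ : ℂ) (hs : Z.denom.eval s₀ = 0) :
    b.eval s₀ = 0 :=
  tt_ideal A Z h b hb s₀ hs

end Pool.Agent.Results.MP_ee8c61_ag.ThomSebastianiIdeals
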